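import Pool.Agent.H961R3.Smyth.Stmts

/-! Task S6 of the project H961-SMYTH: the nonarchimedean necessary condition. -/

open scoped NumberField
open Polynomial

namespace Pool.Agent.H782R3.Smyth6

/-- A valuation of `K` is dominated by a valuation subring of any extension field. -/
theorem exists_dom {K L : Type*} [Field K] [Field L] [Algebra K L] {Γ : Type*}
    [LinearOrderedCommGroupWithZero Γ] (v : Valuation K Γ) :
    ∃ B : ValuationSubring L, ∀ x : K, v x < 1 → B.valuation (algebraMap K L x) < 1 := by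
  let V := v.valuationSubring
  obtain ⟨B, hB, hloc⟩ := IsLocalRing.exists_factor_valuationRing (R := V) (K := L)
    ((algebraMap K L).comp (algebraMap V K))
  refine ⟨B, fun x hx => ?_⟩
  have hxV : x ∈ V := (Valuation.mem_valuationSubring_iff _ _).2 hx.le
  have hmem : algebraMap K L x ∈ B := hB ⟨x, hxV⟩
  have hle : B.valuation (algebraMap K L x) ≤ 1 := (B.valuation_le_one_iff _).2 hmem
  rcases hle.lt_or_eq with h | h
  · exact h
  · exfalso
    have hu : IsUnit (⟨algebraMap K L x, hmem⟩ : B) :=
      (B.valuation_eq_one_iff ⟨algebraMap K L x, hmem⟩).2 h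
    have hu2 : IsUnit (⟨x, hxV⟩ : V) := by
      have := hloc.map_nonunit ⟨x, hxV⟩
      apply this
      exact hu
    obtain ⟨y, hy⟩ := hu2.exists_right_inv
    have h1 : x * (y : K) = 1 := by
      have := congrArg (fun z : V => (z : K)) hy
      simpa using this
    have h2 : v x * v (y : K) = 1 := by rw [← map_mul, h1, map_one]
    have h3 : v (y : K) ≤ 1 := (Valuation.mem_valuationSubring_iff _ _).1 y.2
    have h4 : v x * v (y : K) ≤ v x * 1 := mul_le_mul_right h3 _
    rw [h2, mul_one] at h4
    exact absurd hx (not_lt.2 h4)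

theorem s6 : Pool.Agent.H961R3.Smyth.S6 := by
  intro K _ _ n a hn ⟨α, hα0, hα, hsum⟩ v i
  by_contra hcon
  push Not at hcon
  -- there is another index, so `a i ≠ 0`
  have hex : ∃ j : Fin n, j ≠ i := by
    by_contra h
    push Not at h
    have h0 := h ⟨0, by omega⟩
    have h1 := h ⟨1, by omega⟩
    have := h0.trans h1.symm
    simp at this
  obtain ⟨j₀, hj₀⟩ := hex
  have hai : (v.valuation K) (a i : K) ≠ 0 := fun h => by
    have := hcon j₀ hj₀
    rw [h] at this
    exact not_lt_zero this
  have hai0 : (a i : K) ≠ 0 := fun h => hai (by rw [h, map_zero])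
  obtain ⟨B, hB⟩ := exists_dom (L := AlgebraicClosure K) (v.valuation K)
  set w := B.valuation with hw
  have hlt : ∀ j, j ≠ i → w (algebraMap K (AlgebraicClosure K) (a j : K)) <
      w (algebraMap K (AlgebraicClosure K) (a i : K)) := by
    intro j hj
    have h1 : (v.valuation K) ((a j : K) / (a i : K)) < 1 := by
      rw [map_div₀]
      exact (div_lt_one₀ (zero_lt_iff.2 hai)).2 (hcon j hj)
    have h2 := hB _ h1
    rw [map_div₀, map_div₀] at h2
    have h3 : w (algebraMap K (AlgebraicClosure K) (a i : K)) ≠ 0 := by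
      rw [Valuation.ne_zero_iff]
      exact (_root_.map_ne_zero _).2 hai0
    exact (div_lt_one₀ (zero_lt_iff.2 h3)).1 h2
  -- the conjugate of maximal valuation
  let f := minpoly K (α i)
  have hint : ∀ j, IsIntegral K (α j) := fun j => Algebra.IsIntegral.isIntegral _
  have hf0 : f ≠ 0 := minpoly.ne_zero (hint i)
  have hfin : (f.rootSet (AlgebraicClosure K)).Finite := f.rootSet_finite _
  have hαi : α i ∈ f.rootSet (AlgebraicClosure K) :=
    (mem_rootSet.2 ⟨hf0, minpoly.aeval _ _⟩)
  obtain ⟨β, hβ, hmax⟩ := Set.exists_max_image _ (fun x => w x) hfin ⟨_, hαi⟩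
  obtain ⟨σ, hσ⟩ := minpoly.exists_algEquiv_of_root' (K := K) (x := β) (y := α i)
    (hint i).isAlgebraic (mem_rootSet.1 hβ).2
  have hroot : ∀ j, σ (α j) ∈ f.rootSet (AlgebraicClosure K) := by
    intro j
    refine mem_rootSet.2 ⟨hf0, ?_⟩
    have h1 : f = minpoly K (α j) := hα i j
    have h2 := Polynomial.aeval_algHom_apply (σ : AlgebraicClosure K →ₐ[K] AlgebraicClosure K)
      (α j) (minpoly K (α j))
    rw [minpoly.aeval, map_zero] at h2
    rw [h1]
    exact h2
  have hsum2 : ∑ j, algebraMap K (AlgebraicClosure K) (a j : K) * σ (α j) = 0 := by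
    have := congrArg σ hsum
    simpa [map_sum] using this
  have hβ0 : w β ≠ 0 := by
    rw [Valuation.ne_zero_iff, ← hσ]
    exact (_root_.map_ne_zero _).2 (hα0 i)
  have hg : w (algebraMap K (AlgebraicClosure K) (a i : K)) * w β ≠ 0 := by
    refine mul_ne_zero ?_ hβ0
    rw [Valuation.ne_zero_iff]
    exact (_root_.map_ne_zero _).2 hai0
  have hs : w (∑ j ∈ Finset.univ.erase i,
      algebraMap K (AlgebraicClosure K) (a j : K) * σ (α j)) <
      w (algebraMap K (AlgebraicClosure K) (a i : K)) * w β := by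
    refine w.map_sum_lt hg fun j hj => ?_
    rw [map_mul]
    have h1 := hlt j (Finset.ne_of_mem_erase hj)
    have h2 : w (σ (α j)) ≤ w β := hmax _ (hroot j)
    calc w (algebraMap K (AlgebraicClosure K) (a j : K)) * w (σ (α j))
        ≤ w (algebraMap K (AlgebraicClosure K) (a j : K)) * w β := mul_le_mul_right h2 _
      _ < w (algebraMap K (AlgebraicClosure K) (a i : K)) * w β :=
        mul_lt_mul_of_pos_right h1 (zero_lt_iff.2 hβ0)
  have hdec : algebraMap K (AlgebraicClosure K) (a i : K) * σ (α i) =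
      - ∑ j ∈ Finset.univ.erase i, algebraMap K (AlgebraicClosure K) (a j : K) * σ (α j) := by
    rw [← Finset.add_sum_erase _ _ (Finset.mem_univ i)] at hsum2
    exact eq_neg_of_add_eq_zero_left hsum2
  have h5 := congrArg w hdec
  rw [map_mul, Valuation.map_neg, hσ] at h5
  rw [← h5] at hs
  exact lt_irrefl _ hs

end Pool.Agent.H782R3.Smyth6
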